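import Mathlib
import Pool.Agent.H75.QG.Targets
import Pool.Agent.H68.AC.FPs
import Pool.Agent.H42.AC.SWS

/-!
# General gates: the weighted number of decodings (`T_SWSG`), adapted from `Pool/Agent/H42/AC/SWS.lean`
-/

namespace Pool.Agent.H33.QG

open Finset
open Pool.Agent.H68.AC Pool.Agent.H75.QG

section

variable {V : Type} [DecidableEq V]

/-- weight of one query -/
noncomputable def wvG (M : ℕ) (μ : ℝ) (P : Finset V) (v : V) : ℝ :=
  if v ∈ P then (1 / (8 * ((M : ℝ) + 1))) else μ

theorem gG_eq' (M : ℕ) (μ : ℝ) (P : Finset V) (ψ : List (V × Bool)) :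
    gG M μ P ψ = ((ψ.map Prod.fst).map (wvG M μ P)).prod := by
  unfold gG
  rw [List.map_map]
  rfl

theorem gG_append (M : ℕ) (μ : ℝ) (P : Finset V) (ψ ψ' : List (V × Bool)) :
    gG M μ P (ψ ++ ψ') = gG M μ P ψ * gG M μ P ψ' := by
  unfold gG
  rw [List.map_append, List.prod_append]

theorem gG_nil (M : ℕ) (μ : ℝ) (P : Finset V) : gG M μ P [] = 1 := by simp [gG]

theorem gG_nonneg {M : ℕ} {μ : ℝ} (hμ : 0 ≤ μ) (P : Finset V) (ψ : List (V × Bool)) :
    0 ≤ gG M μ P ψ := by
  unfold gG
  apply List.prod_nonneg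
  intro a ha
  rw [List.mem_map] at ha
  obtain ⟨c, _, rfl⟩ := ha
  split_ifs
  · positivity
  · exact hμ

/-- the weights of all answers to a list of queries -/
theorem sum_ansFG (M : ℕ) (μ : ℝ) (P : Finset V) (L : List V) :
    ∑ α ∈ ansF L, gG M μ P α = (L.map (fun v => 2 * wvG M μ P v)).prod := by
  induction L with
  | nil => simp [ansF, gG_nil]
  | cons v L ih =>
    simp only [ansF, List.map_cons, List.prod_cons]
    rw [Finset.sum_union, Finset.sum_image, Finset.sum_image]
    · have e1 : ∀ b : Bool, ∀ α : List (V × Bool),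
          gG M μ P ((v, b) :: α) = wvG M μ P v * gG M μ P α := by
        intro b α
        unfold gG
        rw [List.map_cons, List.prod_cons]
        rfl
      simp_rw [e1]
      rw [← Finset.mul_sum, ih]
      ring
    · intro a _ b _ h
      exact (List.cons.inj h).2
    · intro a _ b _ h
      exact (List.cons.inj h).2
    · rw [Finset.disjoint_left]
      intro a h1 h2
      rw [Finset.mem_image] at h1 h2
      obtain ⟨x, _, rfl⟩ := h1
      obtain ⟨y, _, h⟩ := h2
      have h3 := (List.cons.inj h).1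
      have h4 := congrArg Prod.snd h3
      simp at h4

open Pool.Agent.H42.AC (lstB lstB_toFinset lstB_inter sum_biUnion_le')

theorem sum_headsG {μ : ℝ} (hμ : 0 ≤ μ) (M : ℕ) (P : Finset V) (κ : PA V) (τ : List (V × Bool))
    {w : ℕ} (hw : τ.length ≤ w) (hwμ : 16 * ((M : ℝ) + 1) * w * μ ≤ 1) (Bs : Finset (Finset V))
    (hBs : ∀ B ∈ Bs, B ⊆ (τ.map Prod.fst).toFinset ∧ B ≠ ∅ ∧
      ∀ v ∈ P, v ∈ τ.map Prod.fst → (v ∈ B ↔ κ v = none)) :
    ∑ B ∈ Bs, ∑ α ∈ ansF (lstB τ B), gG M μ P α ≤ 1 / (3 * ((M : ℝ) + 1)) := by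
  have hM1 : (1 : ℝ) ≤ (M : ℝ) + 1 := by
    have : (0 : ℝ) ≤ M := Nat.cast_nonneg M
    linarith
  have hM0 : (0 : ℝ) < (M : ℝ) + 1 := by linarith
  set m : ℝ := (M : ℝ) + 1 with hm
  have hinv : 1 / m ≤ 1 := by rw [div_le_one hM0]; exact hM1
  have hinv0 : 0 < 1 / m := by positivity
  have ew : (1 : ℝ) / (8 * m) = 1 / 8 * (1 / m) := by field_simp
  have ew3 : (1 : ℝ) / (3 * m) = 1 / 3 * (1 / m) := by field_simp
  set Y : Finset V := (τ.map Prod.fst).toFinset with hY
  set f : V → ℝ := fun v => if v ∈ P then (if κ v = none then 1 / 4 * (1 / m) else 0) else 2 * μ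
    with hf
  set g : V → ℝ := fun v => if v ∈ P then (if κ v = none then 0 else 1) else 1 with hg
  have hf0 : ∀ v, 0 ≤ f v := by
    intro v; simp only [hf]; split_ifs <;> positivity
  have hg0 : ∀ v, 0 ≤ g v := by
    intro v; simp only [hg]; split_ifs <;> norm_num
  have hterm0 : ∀ B : Finset V, 0 ≤ (∏ v ∈ B, f v) * ∏ v ∈ Y \ B, g v := by
    intro B
    exact mul_nonneg (Finset.prod_nonneg (fun v _ => hf0 v)) (Finset.prod_nonneg (fun v _ => hg0 v))
  have h1 : ∀ B ∈ Bs,
      ∑ α ∈ ansF (lstB τ B), gG M μ P α = (∏ v ∈ B, f v) * ∏ v ∈ Y \ B, g v := by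
    intro B hB
    obtain ⟨hBY, _, hBP⟩ := hBs B hB
    have e0 : (lstB τ B).Nodup := List.nodup_dedup _
    rw [sum_ansFG, ← List.prod_toFinset _ e0, lstB_toFinset τ hBY]
    have e2 : ∏ v ∈ Y \ B, g v = 1 := by
      apply Finset.prod_eq_one
      intro v hv
      rw [Finset.mem_sdiff] at hv
      simp only [hg]
      split_ifs with h2 h3
      · exact absurd ((hBP v h2 (List.mem_toFinset.1 hv.1)).2 h3) hv.2
      · rfl
      · rfl
    rw [e2, mul_one]
    apply Finset.prod_congr rfl
    intro v hv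
    simp only [hf, wvG]
    split_ifs with h2 h3
    · rw [← hm, ew]; ring
    · exact absurd ((hBP v h2 (List.mem_toFinset.1 (hBY hv))).1 hv) h3
    · rfl
  rw [Finset.sum_congr rfl h1]
  have h2 : ∑ B ∈ Bs, (∏ v ∈ B, f v) * ∏ v ∈ Y \ B, g v
      ≤ ∑ B ∈ Y.powerset.erase ∅, (∏ v ∈ B, f v) * ∏ v ∈ Y \ B, g v := by
    apply Finset.sum_le_sum_of_subset_of_nonneg
    · intro B hB
      rw [Finset.mem_erase, Finset.mem_powerset]
      exact ⟨(hBs B hB).2.1, (hBs B hB).1⟩
    · intro B _ _
      exact hterm0 B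
  refine h2.trans ?_
  have h3 : ∑ B ∈ Y.powerset, (∏ v ∈ B, f v) * ∏ v ∈ Y \ B, g v = ∏ v ∈ Y, (f v + g v) :=
    (Finset.prod_add f g Y).symm
  have h4 : ∑ B ∈ Y.powerset.erase ∅, (∏ v ∈ B, f v) * ∏ v ∈ Y \ B, g v
      = ∏ v ∈ Y, (f v + g v) - ∏ v ∈ Y, g v := by
    rw [← h3, ← Finset.sum_erase_add _ _ (Finset.empty_mem_powerset Y)]
    simp
  rw [h4]
  have hYw : Y.card ≤ w := by
    calc Y.card ≤ (τ.map Prod.fst).length := List.toFinset_card_le _
      _ = τ.length := List.length_map _
      _ ≤ w := hw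
  have hpow : ∀ n : ℕ, n ≤ w → (1 + 2 * μ) ^ n ≤ 1 + 1 / 7 * (1 / m) := by
    intro n hn
    have e1 : (1 + 2 * μ) ^ n ≤ (Real.exp (2 * μ)) ^ n := by
      gcongr
      linarith [Real.add_one_le_exp (2 * μ)]
    have e2 : (Real.exp (2 * μ)) ^ n = Real.exp (n * (2 * μ)) := by rw [← Real.exp_nat_mul]
    have hn' : (n : ℝ) ≤ w := by exact_mod_cast hn
    have e3 : (n : ℝ) * (2 * μ) ≤ 1 / 8 * (1 / m) := by
      have e30 : (n : ℝ) * μ ≤ w * μ := mul_le_mul_of_nonneg_right hn' hμ
      have e31 : 16 * (w * μ) ≤ 1 / m := by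
        rw [le_div_iff₀ hM0]
        calc 16 * (w * μ) * m = 16 * m * w * μ := by ring
          _ ≤ 1 := hwμ
      linarith
    have e4 : Real.exp (n * (2 * μ)) ≤ Real.exp (1 / 8 * (1 / m)) := Real.exp_le_exp.2 e3
    have hx1 : 1 / 8 * (1 / m) ≤ 1 / 8 := by linarith
    have e5 := Real.exp_bound_div_one_sub_of_interval (x := 1 / 8 * (1 / m)) (by positivity)
      (by linarith)
    have e6 : (1 : ℝ) / (1 - 1 / 8 * (1 / m)) ≤ 1 + 1 / 7 * (1 / m) := by
      rw [div_le_iff₀ (by linarith)]
      have e7 : (1 + 1 / 7 * (1 / m)) * (1 - 1 / 8 * (1 / m))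
          = 1 + 1 / 56 * (1 / m) * (1 - 1 / m) := by ring
      rw [e7]
      have e8 : 0 ≤ 1 / 56 * (1 / m) * (1 - 1 / m) :=
        mul_nonneg (by positivity) (by linarith)
      linarith
    rw [e2] at e1
    linarith
  have hle : ∀ v, f v + g v ≤ 1 + 2 * μ := by
    intro v
    simp only [hf, hg]
    split_ifs <;> linarith
  have h0 : ∀ v, 0 ≤ f v + g v := fun v => add_nonneg (hf0 v) (hg0 v)
  rw [ew3]
  by_cases hX : ∃ v ∈ Y, v ∈ P ∧ κ v = none
  · obtain ⟨v, hv, hvP, hvn⟩ := hX
    have e1 : ∏ u ∈ Y, (f u + g u) = (f v + g v) * ∏ u ∈ Y.erase v, (f u + g u) :=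
      (Finset.mul_prod_erase Y _ hv).symm
    have e2 : f v + g v = 1 / 4 * (1 / m) := by
      simp only [hf, hg, hvP, hvn, if_true, add_zero]
    have e3 : ∏ u ∈ Y.erase v, (f u + g u) ≤ (1 + 2 * μ) ^ (Y.erase v).card := by
      rw [← Finset.prod_const]
      exact Finset.prod_le_prod (fun u _ => h0 u) (fun u _ => hle u)
    have e4 := hpow (Y.erase v).card (by rw [Finset.card_erase_of_mem hv]; omega)
    have e5 : 0 ≤ ∏ v ∈ Y, g v := Finset.prod_nonneg (fun v _ => hg0 v)
    have e6 : ∏ u ∈ Y.erase v, (f u + g u) ≤ 8 / 7 := by linarith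
    have e7 : 1 / 4 * (1 / m) * ∏ u ∈ Y.erase v, (f u + g u) ≤ 1 / 4 * (1 / m) * (8 / 7) :=
      mul_le_mul_of_nonneg_left e6 (by positivity)
    rw [e1, e2]
    linarith
  · push Not at hX
    have e1 : ∏ v ∈ Y, g v = 1 := by
      apply Finset.prod_eq_one
      intro v hv
      simp only [hg]
      split_ifs with h2 h3
      · exact absurd h3 (hX v hv h2)
      · rfl
      · rfl
    have e3 : ∏ u ∈ Y, (f u + g u) ≤ (1 + 2 * μ) ^ Y.card := by
      rw [← Finset.prod_const]
      exact Finset.prod_le_prod (fun u _ => h0 u) (fun u _ => hle u)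
    have e4 := hpow Y.card hYw
    rw [e1]
    linarith

/-- the path found by `nxk` is a path of one of the trees -/
theorem nxk_path {t : ℕ} {cs : List (Bool × DT V)} {κ : PA V} {τ : List (V × Bool)}
    (h : nxk t cs κ = some τ) : ∃ c ∈ cs, IsPath c.2 τ c.1 := by
  induction cs generalizing t with
  | nil => simp [nxk] at h
  | cons c cs ih =>
    cases hfp : fp c.1 c.2 κ with
    | none =>
      have h' : nxk t cs κ = some τ := by
        cases t <;> simpa [nxk, hfp] using h
      obtain ⟨c', hc', h1⟩ := ih h'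
      exact ⟨c', List.mem_cons_of_mem _ hc', h1⟩
    | some σ =>
      cases t with
      | zero =>
        have h' : σ = τ := by simpa [nxk, hfp] using h
        subst h'
        exact ⟨c, List.mem_cons_self, (((fp_t V c.1 c.2 κ).1 σ hfp).1)⟩
      | succ t =>
        have h' : nxk t cs κ = some τ := by simpa [nxk, hfp] using h
        obtain ⟨c', hc', h1⟩ := ih h'
        exact ⟨c', List.mem_cons_of_mem _ hc', h1⟩

/-- the sets of queries of a block for the path `τ` -/
def BsG (P : Finset V) (κ : PA V) (τ : List (V × Bool)) : Finset (Finset V) :=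
  (τ.map Prod.fst).toFinset.powerset.filter (fun B => B ≠ ∅ ∧
    ∀ v ∈ P, v ∈ τ.map Prod.fst → (v ∈ B ↔ κ v = none))

theorem mem_BsG {P : Finset V} {κ : PA V} {τ : List (V × Bool)} {B : Finset V} :
    B ∈ BsG P κ τ ↔ B ⊆ (τ.map Prod.fst).toFinset ∧ B ≠ ∅ ∧
      ∀ v ∈ P, v ∈ τ.map Prod.fst → (v ∈ B ↔ κ v = none) := by
  rw [BsG, Finset.mem_filter, Finset.mem_powerset]

/-- the first blocks which belong to the `t`-th path -/
def HdG (cs : List (Bool × DT V)) (P : Finset V) (κ : PA V) (t : ℕ) : Finset (List (V × Bool)) :=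
  match nxk t cs κ with
  | none => ∅
  | some τ => (BsG P κ τ).biUnion (fun B => ansF (lstB τ B))

theorem sum_HdG {μ : ℝ} (hμ : 0 ≤ μ) (M : ℕ) (cs : List (Bool × DT V)) (P : Finset V) (κ : PA V)
    (t : ℕ) {w : ℕ} (hcs : ∀ c ∈ cs, c.2.depth ≤ w) (hwμ : 16 * ((M : ℝ) + 1) * w * μ ≤ 1) :
    ∑ α ∈ HdG cs P κ t, gG M μ P α ≤ 1 / (3 * ((M : ℝ) + 1)) := by
  unfold HdG
  cases hn : nxk t cs κ with
  | none =>
    simp only [Finset.sum_empty]
    positivity
  | some τ =>
    simp only
    obtain ⟨c, hc, hpath⟩ := nxk_path hn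
    have hlenτ : τ.length ≤ w := (Pool.Agent.H42.AC.path_length hpath).trans (hcs c hc)
    refine (sum_biUnion_le' (BsG P κ τ) (fun B => ansF (lstB τ B)) (fun α => gG M μ P α)
      (fun α => gG_nonneg hμ _ _)).trans ?_
    apply sum_headsG hμ M P κ τ hlenτ hwμ
    intro B hB
    rw [BsG, Finset.mem_filter, Finset.mem_powerset] at hB
    exact ⟨hB.1, hB.2.1, hB.2.2⟩

end

open Pool.Agent.H42.AC (lstB lstB_toFinset lstB_inter sum_biUnion_le')

/-- SWSG -/
theorem swsg : T_SWSG := by
  intro V _ _ M cs w P κ μ S hw1 hcs hμ hwμ hS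
  have key : ∀ n : ℕ, ∀ (κ : PA V) (S : Finset (List (List (V × Bool)))),
      (∀ π ∈ S, IsDG M cs P κ π) → (∀ π ∈ S, π.length ≤ n) →
      ∑ π ∈ S, gG M μ P π.flatten ≤ 3 / 2 := by
    intro n
    have base : ∀ S : Finset (List (List (V × Bool))), (∀ π ∈ S, π = []) →
        ∑ π ∈ S, gG M μ P π.flatten ≤ 3 / 2 := by
      intro S hS
      have h1 : S ⊆ {[]} := fun π hπ => Finset.mem_singleton.2 (hS π hπ)
      calc ∑ π ∈ S, gG M μ P π.flatten
          ≤ ∑ π ∈ ({[]} : Finset (List (List (V × Bool)))), gG M μ P π.flatten :=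
            Finset.sum_le_sum_of_subset_of_nonneg h1 (fun _ _ _ => gG_nonneg hμ _ _)
        _ = 1 := by rw [Finset.sum_singleton, List.flatten_nil, gG_nil]
        _ ≤ 3 / 2 := by norm_num
    induction n with
    | zero =>
      intro κ S _ hlen
      exact base S (fun π hπ => List.eq_nil_of_length_eq_zero (Nat.le_zero.1 (hlen π hπ)))
    | succ n ih =>
      intro κ S hS hlen
      set Hd : Finset (List (V × Bool)) := (Finset.range (M + 1)).biUnion (fun t => HdG cs P κ t)
        with hHd
      set tails : List (V × Bool) → Finset (List (List (V × Bool))) := fun α =>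
        (S.filter (fun π => π.head? = some α)).image List.tail with htails
      have htail : ∀ α π, π ∈ tails α → α :: π ∈ S := by
        intro α π hπ
        simp only [htails, Finset.mem_image, Finset.mem_filter] at hπ
        obtain ⟨ρ, ⟨hρ, hh⟩, rfl⟩ := hπ
        cases ρ with
        | nil => simp at hh
        | cons β ρ =>
          simp only [List.head?_cons, Option.some.injEq] at hh
          rw [← hh]
          exact hρ
      have hcov : S ⊆ {[]} ∪ Hd.biUnion (fun α => (tails α).image (List.cons α)) := by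
        intro π hπ
        cases π with
        | nil => exact Finset.mem_union_left _ (Finset.mem_singleton_self _)
        | cons α π =>
          apply Finset.mem_union_right
          rw [Finset.mem_biUnion]
          refine ⟨α, ?_, ?_⟩
          · obtain ⟨⟨t, ht, τ, hτ, hαn, B, hB1, hB2⟩, _⟩ := hS _ hπ
            rw [hHd, Finset.mem_biUnion]
            refine ⟨t, Finset.mem_range.2 (by omega), ?_⟩
            simp only [HdG, hτ]
            rw [Finset.mem_biUnion]
            refine ⟨B ∩ (τ.map Prod.fst).toFinset, ?_, ?_⟩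
            · refine mem_BsG.2 ?_
              refine ⟨Finset.inter_subset_right, ?_, ?_⟩
              · intro h0
                have h1 : lstB τ (B ∩ (τ.map Prod.fst).toFinset) = lstB τ B := lstB_inter τ B
                rw [h0] at h1
                have h2 : lstB τ ∅ = [] := by simp [lstB]
                rw [h2] at h1
                have h3 : α.map Prod.fst = [] := by rw [hB2]; exact h1.symm
                exact hαn (List.map_eq_nil_iff.1 h3)
              · intro v hvP hvτ
                rw [Finset.mem_inter, List.mem_toFinset, ← hB1 v hvP hvτ]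
                exact ⟨fun h => h.1, fun h => ⟨h, hvτ⟩⟩
            · rw [mem_ansF, lstB_inter]
              exact hB2
          · rw [Finset.mem_image]
            refine ⟨π, ?_, rfl⟩
            simp only [htails, Finset.mem_image, Finset.mem_filter]
            exact ⟨α :: π, ⟨hπ, rfl⟩, rfl⟩
      have hnn : ∀ π : List (List (V × Bool)), 0 ≤ gG M μ P π.flatten := fun π => gG_nonneg hμ _ _
      have hmain : ∀ α, ∑ π ∈ (tails α).image (List.cons α), gG M μ P π.flatten
          ≤ gG M μ P α * (3 / 2) := by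
        intro α
        rw [Finset.sum_image (fun a _ b _ h => (List.cons.inj h).2)]
        simp_rw [List.flatten_cons, gG_append]
        rw [← Finset.mul_sum]
        apply mul_le_mul_of_nonneg_left _ (gG_nonneg hμ _ _)
        apply ih (updL κ α)
        · intro π hπ
          exact (hS _ (htail α π hπ)).2
        · intro π hπ
          have := hlen _ (htail α π hπ)
          simp only [List.length_cons] at this
          omega
      calc ∑ π ∈ S, gG M μ P π.flatten
          ≤ ∑ π ∈ {[]} ∪ Hd.biUnion (fun α => (tails α).image (List.cons α)), gG M μ P π.flatten :=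
            Finset.sum_le_sum_of_subset_of_nonneg hcov (fun _ _ _ => hnn _)
        _ ≤ ∑ π ∈ ({[]} : Finset (List (List (V × Bool)))), gG M μ P π.flatten
            + ∑ π ∈ Hd.biUnion (fun α => (tails α).image (List.cons α)), gG M μ P π.flatten := by
            have h1 := Finset.sum_union_inter (s₁ := ({[]} : Finset (List (List (V × Bool)))))
              (s₂ := Hd.biUnion (fun α => (tails α).image (List.cons α)))
              (f := fun π => gG M μ P π.flatten)
            have h2 : 0 ≤ ∑ x ∈ ({[]} : Finset (List (List (V × Bool)))) ∩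
                Hd.biUnion (fun α => (tails α).image (List.cons α)), gG M μ P x.flatten :=
              Finset.sum_nonneg (fun x _ => hnn x)
            linarith
        _ ≤ 1 + ∑ α ∈ Hd, ∑ π ∈ (tails α).image (List.cons α), gG M μ P π.flatten := by
            have h1 := sum_biUnion_le' Hd (fun α => (tails α).image (List.cons α))
              (fun π => gG M μ P π.flatten) hnn
            rw [Finset.sum_singleton, List.flatten_nil, gG_nil]
            linarith
        _ ≤ 1 + ∑ α ∈ Hd, gG M μ P α * (3 / 2) := by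
            have := Finset.sum_le_sum (s := Hd) (fun α _ => hmain α)
            linarith
        _ = 1 + (∑ α ∈ Hd, gG M μ P α) * (3 / 2) := by rw [Finset.sum_mul]
        _ ≤ 1 + (∑ t ∈ Finset.range (M + 1), ∑ α ∈ HdG cs P κ t, gG M μ P α) * (3 / 2) := by
            have := sum_biUnion_le' (Finset.range (M + 1)) (fun t => HdG cs P κ t)
              (fun α => gG M μ P α) (fun α => gG_nonneg hμ _ _)
            linarith
        _ ≤ 1 + 1 / 3 * (3 / 2) := by
            have h1 : ∑ t ∈ Finset.range (M + 1), ∑ α ∈ HdG cs P κ t, gG M μ P α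
                ≤ ∑ _t ∈ Finset.range (M + 1), 1 / (3 * ((M : ℝ) + 1)) :=
              Finset.sum_le_sum (fun t _ => sum_HdG hμ M cs P κ t hcs hwμ)
            rw [Finset.sum_const, Finset.card_range, nsmul_eq_mul] at h1
            have hM0 : (0 : ℝ) < (M : ℝ) + 1 := by positivity
            have h2 : ((M + 1 : ℕ) : ℝ) * (1 / (3 * ((M : ℝ) + 1))) = 1 / 3 := by
              push_cast
              field_simp
            rw [h2] at h1
            linarith
        _ = 3 / 2 := by norm_num
  exact key (S.sup List.length) κ S hS (fun π hπ => Finset.le_sup (f := List.length) hπ)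

end Pool.Agent.H33.QG
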