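import Mathlib
import Pool.Agent.H75.QG.Targets
import Pool.Agent.H90.QG.LEVG
import Pool.Agent.H70.AC.A
import Pool.Agent.H33.QG.SWSG

/-!
# General gates: in a fixed world all trees are shallow (`T_AG`), adapted from `Pool/Agent/H70/AC/A.lean`
-/

namespace Pool.Agent.H33.QG

open Finset Pool.Agent.H68.AC Pool.Agent.H75.QG
open Pool.Agent.H70.AC (exists_path_depth filter_le w1_nonneg wt_nonneg Wt_nonneg ind_nonneg ind_true
  ind_false rho_update)

theorem gG_eq2 {V : Type} [DecidableEq V] (M : ℕ) (P : Finset V) (ψ : List (V × Bool)) :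
    gG M 2 P ψ * (16 * ((M : ℝ) + 1)) ^ (ψ.filter (fun c => c.1 ∈ P)).length = 2 ^ ψ.length := by
  induction ψ with
  | nil => simp [gG]
  | cons c ψ ih =>
    have h1 : gG M 2 P (c :: ψ) = (if c.1 ∈ P then (1 / (8 * ((M : ℝ) + 1))) else 2) * gG M 2 P ψ := by
      simp only [gG, List.map_cons, List.prod_cons]
    rw [h1]
    by_cases hc : c.1 ∈ P
    · rw [List.filter_cons_of_pos (by simpa using hc)]
      simp only [hc, if_true, List.length_cons, pow_succ]
      rw [← ih]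
      have hM : (M : ℝ) + 1 ≠ 0 := by positivity
      field_simp
      ring
    · rw [List.filter_cons_of_neg (by simpa using hc)]
      simp only [hc, if_false, List.length_cons, pow_succ]
      rw [← ih]; ring

theorem gG_ge {V : Type} [DecidableEq V] (M : ℕ) (P : Finset V) (ψ : List (V × Bool)) (w : ℕ)
    (hn : (ψ.map Prod.fst).Nodup) (hw : w < ψ.length) :
    1 ≤ (16 * ((M : ℝ) + 1)) ^ P.card / 2 ^ (w + 1) * gG M 2 P ψ := by
  have h0 : 0 ≤ gG M 2 P ψ := gG_nonneg (by norm_num) _ _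
  have hM : (0 : ℝ) ≤ M := Nat.cast_nonneg M
  have h1 : (2 : ℝ) ^ (w + 1) ≤ (16 * ((M : ℝ) + 1)) ^ P.card * gG M 2 P ψ := by
    calc (2 : ℝ) ^ (w + 1) ≤ 2 ^ ψ.length := pow_le_pow_right₀ (by norm_num) hw
      _ = gG M 2 P ψ * (16 * ((M : ℝ) + 1)) ^ (ψ.filter (fun c => c.1 ∈ P)).length :=
        (gG_eq2 M P ψ).symm
      _ ≤ gG M 2 P ψ * (16 * ((M : ℝ) + 1)) ^ P.card :=
        mul_le_mul_of_nonneg_left (pow_le_pow_right₀ (by linarith) (filter_le P ψ hn)) h0
      _ = _ := mul_comm _ _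
  rw [div_mul_eq_mul_div, le_div_iff₀ (by positivity), one_mul]
  exact h1

theorem mem_chtG {V : Type} [DecidableEq V] [Fintype V] {s d M : ℕ} (C : CktG V s d M) (P : Finset V)
    (R : Fin d → PA V) (g : Fin s) (c : Bool × DT V) :
    c ∈ C.cht P R g ↔ ∃ a ∈ C.ch g, c = (a.1, C.stree P R a.2) := by
  simp only [CktG.cht, List.mem_map]
  constructor
  · rintro ⟨a, h, rfl⟩; exact ⟨a, h, rfl⟩
  · rintro ⟨a, h, rfl⟩; exact ⟨a, h, rfl⟩

/-- A gate of minimal level with a deep tree. -/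
theorem exists_min_gateG {V : Type} [DecidableEq V] [Fintype V] {s d M : ℕ} (C : CktG V s d M) (w : ℕ)
    (P : Finset V) (R : Fin d → PA V) (hw : 1 ≤ w) (n : ℕ) : ∀ g, C.lev g = n →
    w < (C.T P R g).depth → ∃ g, (∀ c ∈ C.cht P R g, c.2.depth ≤ w) ∧ w < (C.T P R g).depth := by
  induction n using Nat.strong_induction_on with
  | _ n ih =>
    intro g hg hd
    by_cases h : ∀ c ∈ C.cht P R g, c.2.depth ≤ w
    · exact ⟨g, h, hd⟩
    · push Not at h
      obtain ⟨c, hc, hcd⟩ := h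
      obtain ⟨⟨b, a⟩, ha, rfl⟩ := (mem_chtG C P R g c).1 hc
      rcases a with i | g'
      · exfalso
        have : (C.stree P R (Sum.inl i)).depth ≤ 1 := by
          cases i <;> simp [CktG.stree, Inp.tree, DT.depth]
        simp only at hcd
        omega
      · have hl := C.acyc g b g' ha
        exact ih (C.lev g') (by omega) g' rfl hcd

theorem ag_fixed (hSW : T_SWG) (hFUB : T_FUB) (hINV : T_INVG) (hCANP : T_CANPG) (hBPN : T_BPNG)
    (hBPF : T_BPFM)
    (V : Type) [DecidableEq V] [Fintype V] (s d M : ℕ) (C : CktG V s d M) (w : ℕ)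
    (P : Finset V) (p q : ℝ) (hw : 1 ≤ w) (hp : 0 < p) (hp2 : p ≤ 1 / 2) (hq : 0 < q)
    (hq2 : q ≤ 1 / 2) (hwq : 64 * ((M : ℝ) + 1) * w * q ≤ p) (g : Fin s) :
    ∑ R : Fin d → PA V, Wt q p R *
      ind ((∀ c ∈ C.cht P R g, c.2.depth ≤ w) ∧ w < (C.T P R g).depth) ≤
      3 / 2 * (16 * ((M : ℝ) + 1)) ^ P.card / 2 ^ (w + 1) := by
  have hB : (0 : ℝ) ≤ (16 * ((M : ℝ) + 1)) ^ P.card / 2 ^ (w + 1) := by positivity
  apply hFUB V d q p
    (fun R => ind ((∀ c ∈ C.cht P R g, c.2.depth ≤ w) ∧ w < (C.T P R g).depth))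
    ⟨C.lev g, C.lev_lt g⟩ _ hq.le (by linarith) hp.le (by linarith)
  intro R
  set j : Fin d := ⟨C.lev g, C.lev_lt g⟩ with hj
  have hcht : ∀ Q, C.cht P (Function.update R j Q) g = C.cht P R g := by
    intro Q
    apply (hINV V s d M C P (Function.update R j Q) R).2.2 g
    intro i hi
    have : i ≠ j := by rintro rfl; simp [hj] at hi
    rw [Function.update_of_ne this]
  simp only [hcht]
  by_cases hsh : ∀ c ∈ C.cht P R g, c.2.depth ≤ w
  · have hterm : ∀ Q : PA V, wt q p Q * ind ((∀ c ∈ C.cht P R g, c.2.depth ≤ w) ∧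
        w < (C.T P (Function.update R j Q) g).depth) ≤
        (16 * ((M : ℝ) + 1)) ^ P.card / 2 ^ (w + 1) * (wt q p Q *
        ∑ π ∈ BPFG M (C.cht P R g) (Fintype.card V) (mask P (mrg (fd R j.1) Q)),
          gG M 2 P π.flatten) := by
      intro Q
      have hwt : 0 ≤ wt q p Q := wt_nonneg hq.le (by linarith) hp.le (by linarith) Q
      have hsum : 0 ≤ ∑ π ∈ BPFG M (C.cht P R g) (Fintype.card V) (mask P (mrg (fd R j.1) Q)),
          gG M 2 P π.flatten := Finset.sum_nonneg (fun π _ => gG_nonneg (by norm_num) _ _)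
      rw [mul_left_comm]
      apply mul_le_mul_of_nonneg_left _ hwt
      by_cases hdeep : w < (C.T P (Function.update R j Q) g).depth
      · rw [ind_true ⟨hsh, hdeep⟩]
        obtain ⟨ψ, c, hψ, hlen⟩ := exists_path_depth (C.T P (Function.update R j Q) g)
        rw [Pool.Agent.H90.QG.T_eq, hcht] at hψ
        have hr : rho P (Function.update R j Q) (C.lev g + 1) = mask P (mrg (fd R j.1) Q) :=
          rho_update P R Q j
        rw [hr] at hψ
        obtain ⟨π, hπ, hbp, _⟩ := hCANP V M _ _ _ _ _ _ _ (Pool.Agent.H70.AC.nfree_le _) hψ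
        obtain ⟨hnd, _, hl⟩ := hBPN V M _ _ _ hbp
        have hge : 1 ≤ (16 * ((M : ℝ) + 1)) ^ P.card / 2 ^ (w + 1) * gG M 2 P π.flatten := by
          apply gG_ge M P _ w hnd
          rw [hπ, hlen]; exact hdeep
        refine hge.trans (mul_le_mul_of_nonneg_left ?_ hB)
        exact Finset.single_le_sum (f := fun π : List (List (V × Bool)) => gG M 2 P π.flatten)
          (fun π _ => gG_nonneg (by norm_num) _ _) ((hBPF V M _ _ _ _).2 ⟨hbp, hl⟩)
      · rw [ind_false (fun h => hdeep h.2)]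
        exact mul_nonneg hB hsum
    calc _ ≤ ∑ Q : PA V, (16 * ((M : ℝ) + 1)) ^ P.card / 2 ^ (w + 1) * (wt q p Q *
        ∑ π ∈ BPFG M (C.cht P R g) (Fintype.card V) (mask P (mrg (fd R j.1) Q)),
          gG M 2 P π.flatten) := Finset.sum_le_sum (fun Q _ => hterm Q)
      _ = (16 * ((M : ℝ) + 1)) ^ P.card / 2 ^ (w + 1) * ∑ Q : PA V, (wt q p Q *
        ∑ π ∈ BPFG M (C.cht P R g) (Fintype.card V) (mask P (mrg (fd R j.1) Q)),
          gG M 2 P π.flatten) := (Finset.mul_sum _ _ _).symm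
      _ ≤ (16 * ((M : ℝ) + 1)) ^ P.card / 2 ^ (w + 1) * (3 / 2) :=
        mul_le_mul_of_nonneg_left
          (hSW V M (C.cht P R g) w P (fd R j.1) p q (Fintype.card V) hw hsh hp hp2 hq hq2 hwq) hB
      _ = _ := by ring
  · have h0 : ∀ Q : PA V, wt q p Q * ind ((∀ c ∈ C.cht P R g, c.2.depth ≤ w) ∧
        w < (C.T P (Function.update R j Q) g).depth) = 0 := by
      intro Q
      rw [ind_false (fun h => hsh h.1), mul_zero]
    rw [Finset.sum_congr rfl (fun Q _ => h0 Q), Finset.sum_const_zero]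
    positivity

/-- Module AG. -/
theorem ag (hSW : T_SWG) (hFUB : T_FUB) (hINV : T_INVG) (hCANP : T_CANPG) (hBPN : T_BPNG)
    (hBPF : T_BPFM) : T_AG := by
  intro V _ _ s d M C w P p q hw hp hp2 hq hq2 hwq
  have hle : ∀ R : Fin d → PA V, ind (∃ g, w < (C.T P R g).depth) ≤
      ∑ g : Fin s, ind ((∀ c ∈ C.cht P R g, c.2.depth ≤ w) ∧ w < (C.T P R g).depth) := by
    intro R
    by_cases h : ∃ g, w < (C.T P R g).depth
    · rw [ind_true h]
      obtain ⟨g, hg⟩ := h
      obtain ⟨g', hg'⟩ := exists_min_gateG C w P R hw _ g rfl hg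
      rw [← ind_true hg']
      exact Finset.single_le_sum
        (f := fun g : Fin s => ind ((∀ c ∈ C.cht P R g, c.2.depth ≤ w) ∧ w < (C.T P R g).depth))
        (fun g _ => ind_nonneg _) (Finset.mem_univ g')
    · rw [ind_false h]
      exact Finset.sum_nonneg (fun g _ => ind_nonneg _)
  calc ∑ R : Fin d → PA V, Wt q p R * ind (∃ g, w < (C.T P R g).depth)
      ≤ ∑ R : Fin d → PA V, ∑ g : Fin s, Wt q p R *
        ind ((∀ c ∈ C.cht P R g, c.2.depth ≤ w) ∧ w < (C.T P R g).depth) := by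
        apply Finset.sum_le_sum
        intro R _
        rw [← Finset.mul_sum]
        exact mul_le_mul_of_nonneg_left (hle R)
          (Wt_nonneg hq.le (by linarith) hp.le (by linarith) R)
    _ = ∑ g : Fin s, ∑ R : Fin d → PA V, Wt q p R *
        ind ((∀ c ∈ C.cht P R g, c.2.depth ≤ w) ∧ w < (C.T P R g).depth) := Finset.sum_comm
    _ ≤ ∑ _g : Fin s, (3 / 2 * (16 * ((M : ℝ) + 1)) ^ P.card / 2 ^ (w + 1) : ℝ) := by
        apply Finset.sum_le_sum
        intro g _
        exact ag_fixed hSW hFUB hINV hCANP hBPN hBPF V s d M C w P p q hw hp hp2 hq hq2 hwq g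
    _ = s * (3 / 2 * (16 * ((M : ℝ) + 1)) ^ P.card / 2 ^ (w + 1)) := by
        rw [Finset.sum_const, Finset.card_univ, Fintype.card_fin, nsmul_eq_mul]

end Pool.Agent.H33.QG
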